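import Pool.Agent.D0H67.TS.Stm
import Pool.Agent.D0H35.CX.Ordt

/-! # The leading coefficient along a smooth map -/

set_option autoImplicit false

namespace Pool.Agent.D0H5.TS

open MvPolynomial Pool.Agent.W428.MOT Pool.Agent.TH192.MT Pool.Agent.TH192.DT
  Pool.Agent.D0H67.SUB Pool.Agent.D0H67.PM Pool.Agent.D0H67.SUB.Trn Pool.Agent.D0H67.CX
  Pool.Agent.D0H67.TS
open Pool.Agent.D0H35.CX (dvd_of_rel coeff_of_rel dvd_push jk_push mem_JetE push_coeff)

theorem mem_JetC {K : Type} [Field K] {σ J : Type} {g : J → MvPolynomial σ K} {p : Pt K σ}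
    {y : J → AlgebraicClosure K} {N : ℕ} {c : AlgebraicClosure K} {z : Pt K (σ × Fin (N + 1))} :
    z ∈ JetC g p y N c ↔ jk z 0 = p ∧ (∀ j, PowerSeries.X ^ N ∣ aeval (ar z) (g j)) ∧
      ∀ j, PowerSeries.coeff N (aeval (ar z) (g j)) = c * y j := by
  have h0 : jk z 0 = fun i => z (i, 0) := Lev.jk_zero z
  rw [h0, funext_iff]
  refine and_congr Iff.rfl (and_congr ?_ Iff.rfl)
  exact forall_congr' fun j => PowerSeries.X_pow_dvd_iff.symm

/-- (ORDC) -/
theorem t_ORDC : S_ORDC := by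
  intro K _ σ τ J J' _ _ _ _ g g' f h h1 h2 p y' N₀ z₀ hp hz₀ hm₀
  cases nonempty_fintype J
  cases nonempty_fintype J'
  have h1' : ∀ j, ∃ H : J' → MvPolynomial σ K, ∑ l, H l * bind₁ f (g' l) = h * g j :=
    fun j => Ideal.mem_span_range_iff_exists_fun.1 (h1 j)
  have h2' : ∀ l, ∃ H : J → MvPolynomial σ K, ∑ j, H j * g j = h * bind₁ f (g' l) :=
    fun l => Ideal.mem_span_range_iff_exists_fun.1 (h2 l)
  choose H hH using h1'
  choose H' hH' using h2'
  have dv : ∀ {N : ℕ} (z : Pt K (σ × Fin (N + 1))), aeval (jk z 0) h ≠ 0 → ∀ n ≤ N + 1,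
      ((∀ j, PowerSeries.X ^ n ∣ aeval (ar z) (g j)) ↔
        ∀ l, PowerSeries.X ^ n ∣ aeval (ar (push f z)) (g' l)) := by
    intro N z hz n hn
    constructor
    · intro hj l
      rw [dvd_push f z (g' l) hn]
      exact dvd_of_rel z hz (g := fun l => bind₁ f (g' l)) hH' hj l
    · intro hl j
      exact dvd_of_rel z hz hH (fun l => (dvd_push f z (g' l) hn).1 (hl l)) j
  -- the coefficients
  have c1 : ∀ {N : ℕ} (z : Pt K (σ × Fin (N + 1))), jk z 0 = p →
      (∀ j, PowerSeries.X ^ N ∣ aeval (ar z) (g j)) →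
      (∀ j, aeval p h * PowerSeries.coeff N (aeval (ar z) (g j)) =
        ∑ l, aeval p (H j l) * PowerSeries.coeff N (aeval (ar (push f z)) (g' l))) ∧
      ∀ l, aeval p h * PowerSeries.coeff N (aeval (ar (push f z)) (g' l)) =
        ∑ j, aeval p (H' l j) * PowerSeries.coeff N (aeval (ar z) (g j)) := by
    intro N z hz hj
    have hz' : aeval (jk z 0) h ≠ 0 := by rw [hz]; exact hp
    have hl := (dv z hz' N (by omega)).1 hj
    have hl' : ∀ l, PowerSeries.X ^ N ∣ aeval (ar z) (bind₁ f (g' l)) :=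
      fun l => (dvd_push f z (g' l) (by omega)).1 (hl l)
    have a1 := coeff_of_rel z hH hl' hj
    have a2 := coeff_of_rel z (g := fun l => bind₁ f (g' l)) hH' hj hl'
    rw [hz] at a1 a2
    simp only [push_coeff f z _ (Nat.lt_succ_self N)]
    exact ⟨a1, a2⟩
  have push0 : ∀ {N : ℕ} (z : Pt K (σ × Fin (N + 1))), jk z 0 = p →
      jk (push f z) 0 = vf f p := by
    intro N z hz
    rw [jk_push, hz]
  obtain ⟨-, hd₀, c₀, hc₀, he₀⟩ := mem_JetE.1 hm₀
  let y : J → AlgebraicClosure K := fun j => (∑ l, aeval p (H j l) * y' l) / aeval p h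
  have hz₀' : aeval (jk z₀ 0) h ≠ 0 := by rw [hz₀]; exact hp
  have hj₀ := (dv z₀ hz₀' N₀ (by omega)).2 hd₀
  -- the direction from `g'` to `g`
  have fwd : ∀ {N : ℕ} (z : Pt K (σ × Fin (N + 1))), jk z 0 = p →
      (∀ j, PowerSeries.X ^ N ∣ aeval (ar z) (g j)) → ∀ c : AlgebraicClosure K,
      (∀ l, PowerSeries.coeff N (aeval (ar (push f z)) (g' l)) = c * y' l) →
      ∀ j, PowerSeries.coeff N (aeval (ar z) (g j)) = c * y j := by
    intro N z hz hj c hc j
    have a1 := (c1 z hz hj).1 j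
    have : aeval p h * PowerSeries.coeff N (aeval (ar z) (g j)) = aeval p h * (c * y j) := by
      rw [a1]
      show _ = aeval p h * (c * ((∑ l, aeval p (H j l) * y' l) / aeval p h))
      rw [mul_left_comm, mul_div_cancel₀ _ hp, Finset.mul_sum]
      refine Finset.sum_congr rfl fun l _ => ?_
      rw [hc l]
      ring
    exact mul_left_cancel₀ hp this
  have rel : ∀ l, ∑ j, aeval p (H' l j) * y j = aeval p h * y' l := by
    intro l
    have a2 := (c1 z₀ hz₀ hj₀).2 l
    rw [he₀ l] at a2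
    have a3 : ∑ j, aeval p (H' l j) * PowerSeries.coeff N₀ (aeval (ar z₀) (g j)) =
        c₀ * ∑ j, aeval p (H' l j) * y j := by
      rw [Finset.mul_sum]
      refine Finset.sum_congr rfl fun j _ => ?_
      rw [fwd z₀ hz₀ hj₀ c₀ he₀ j]
      ring
    rw [a3] at a2
    apply mul_left_cancel₀ hc₀
    rw [← a2]
    ring
  refine ⟨y, ?_, ?_⟩
  · intro hy' hy
    apply hy'
    funext l
    have := rel l
    rw [hy] at this
    simp only [Pi.zero_apply, mul_zero, Finset.sum_const_zero] at this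
    exact (mul_eq_zero.1 this.symm).resolve_left hp
  · intro N c
    ext z
    rw [mem_JetC, Set.mem_ofPred_eq, mem_JetC]
    constructor
    · rintro ⟨hz, hj, he⟩
      have hz' : aeval (jk z 0) h ≠ 0 := by rw [hz]; exact hp
      refine ⟨hz, push0 z hz, (dv z hz' N (by omega)).1 hj, fun l => ?_⟩
      have a2 := (c1 z hz hj).2 l
      apply mul_left_cancel₀ hp
      rw [a2]
      have a3 : ∑ j, aeval p (H' l j) * PowerSeries.coeff N (aeval (ar z) (g j)) =
          c * ∑ j, aeval p (H' l j) * y j := by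
        rw [Finset.mul_sum]
        refine Finset.sum_congr rfl fun j _ => ?_
        rw [he j]
        ring
      rw [a3, rel l]
      ring
    · rintro ⟨hz, -, hl, he⟩
      have hz' : aeval (jk z 0) h ≠ 0 := by rw [hz]; exact hp
      have hj := (dv z hz' N (by omega)).2 hl
      exact ⟨hz, hj, fwd z hz hj c he⟩

end Pool.Agent.D0H5.TS
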