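import Pool.Agent.D0H5.TS.Tl
import Pool.Agent.D0H35.CX.Rec3

/-! # (REC3T) the sum of the `q k` -/

set_option autoImplicit false
set_option linter.unusedSectionVars false

namespace Pool.Agent.D0H5.TS

open MvPolynomial Pool.Agent.W428.MOT Pool.Agent.TH192.MT Pool.Agent.D0H67.SUB
  Pool.Agent.D0H67.SUB.Lev Pool.Agent.D0H67.SUB.Shift
open Pool.Agent.D0H67.CX Pool.Agent.D0H67.TS
open Pool.Agent.D0H87.CX.Rec Pool.Agent.D0H35.CX

theorem coeff_tl {R : Type} [CommRing R] (c : R) (F : PowerSeries R) (N : ℕ) :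
    PowerSeries.coeff N (tl c F) = c - ∑ k ∈ Finset.range N, PowerSeries.coeff k F := by
  have h : (1 - PowerSeries.X) * tl c F = PowerSeries.C c - PowerSeries.X * F := by
    unfold tl
    calc (1 - PowerSeries.X) * ((PowerSeries.C c - PowerSeries.X * F) *
          (PowerSeries.mk fun _ => (1 : R)))
        = (PowerSeries.C c - PowerSeries.X * F) * ((1 - PowerSeries.X) *
          (PowerSeries.mk fun _ => (1 : R))) := by ring
      _ = _ := by rw [geo, mul_one]
  rw [sub_mul, one_mul] at h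
  induction N with
  | zero =>
    have h0 := congrArg (PowerSeries.coeff 0) h
    rw [map_sub, map_sub, PowerSeries.coeff_zero_X_mul, PowerSeries.coeff_zero_X_mul,
      PowerSeries.coeff_zero_C, sub_zero, sub_zero] at h0
    rw [h0]
    simp
  | succ N ih =>
    have h0 := congrArg (PowerSeries.coeff (N + 1)) h
    rw [map_sub, map_sub, PowerSeries.coeff_succ_X_mul, PowerSeries.coeff_succ_X_mul,
      PowerSeries.coeff_C, if_neg (Nat.succ_ne_zero N), ih] at h0
    rw [Finset.sum_range_succ]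
    linear_combination h0

/-- the coordinates of the jets -/
def eV (σ : Type) (d : ℕ) : σ ⊕ (σ × Fin d) ≃ σ × Fin (d + 1) where
  toFun := Sum.elim (fun i => (i, 0)) fun p => (p.1, p.2.succ)
  invFun p := Fin.cases (Sum.inl p.1) (fun k => Sum.inr (p.1, k)) p.2
  left_inv := by rintro (i | ⟨i, k⟩) <;> rfl
  right_inv := by
    rintro ⟨i, k⟩
    refine Fin.cases ?_ (fun k => ?_) k
    · rfl
    · rfl

variable {K : Type} [Field K] {σ J : Type}

theorem mem_mtwW {w : σ → ℕ} {d : ℕ} (g : J → MvPolynomial σ K)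
    (hg : ∀ j, (g j).IsWeightedHomogeneous w d) (s : Pt K (Rec3.TT w d)) :
    Rec3.mtw w s ∈ JetW g {0} d ↔
      (fun i => Rec3.ex w s (i, 0)) ∈ {z : Pt K σ | ∀ i, w i = 0 → z i = 0} := by
  have hc : ∀ j k, PowerSeries.coeff k (aeval (ar (Rec3.mtw w s)) (g j)) =
      if d ≤ k then PowerSeries.coeff (k - d) (aeval (ar (Rec3.ex w s)) (g j)) else 0 := by
    intro j k
    have h : ar (Rec3.mtw w s) = fun i => PowerSeries.X ^ w i * ar (Rec3.ex w s) i :=
      funext fun i => Rec3.ar_mtw w s i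
    rw [h, Scale2.aeval_whom w _ _ (hg j), PowerSeries.coeff_X_pow_mul']
  have h0 : (fun i => Rec3.mtw w s (i, 0)) ∈ ({0} : Set (Pt K σ)) ↔
      (fun i => Rec3.ex w s (i, 0)) ∈ {z : Pt K σ | ∀ i, w i = 0 → z i = 0} := by
    rw [Set.mem_singleton_iff, Set.mem_ofPred_eq, funext_iff]
    refine forall_congr' fun i => ?_
    by_cases h : w i = 0
    · have h1 : Rec3.mtw w s (i, 0) = Rec3.ex w s (i, 0) := by
        unfold Rec3.mtw Rec3.ex
        rw [dif_pos (by dsimp only; omega), dif_pos (by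
          change ((0 : Fin (d + 1)) : ℕ) + w i ≤ d
          rw [h]
          simp)]
        congr 1
        refine Subtype.ext (Prod.ext rfl (Fin.ext ?_))
        change ((0 : Fin (d + 1)) : ℕ) - w i = ((0 : Fin (d + 1)) : ℕ)
        omega
      change Rec3.mtw w s (i, 0) = 0 ↔ (w i = 0 → Rec3.ex w s (i, 0) = 0)
      rw [h1]
      simp [h]
    · have h1 : Rec3.mtw w s (i, 0) = 0 := by
        unfold Rec3.mtw
        rw [dif_neg]
        change ¬ (w i ≤ ((0 : Fin (d + 1)) : ℕ))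
        rw [Fin.val_zero]
        omega
      change Rec3.mtw w s (i, 0) = 0 ↔ (w i = 0 → Rec3.ex w s (i, 0) = 0)
      rw [h1]
      simp [h]
  rw [← h0]
  constructor
  · exact fun h => h.1
  · intro h
    refine ⟨h, fun j k hk => ?_⟩
    rw [hc, if_neg (by omega)]

variable [Fintype σ]

theorem chi_wW [Finite J] {w : σ → ℕ} {d : ℕ} (hd : 0 < d)
    (g : J → MvPolynomial σ K) (hg : ∀ j, (g j).IsWeightedHomogeneous w d) (hfree : Rec3.Free g w)
    {R : Type} [CommRing R] (M : Meas K R) (hW : Constr (JetW g {0} d)) :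
    M.χ σ {z | ∀ i, w i = 0 → z i = 0} * M.L ^ (Fintype.card σ * d) =
      M.χ _ (JetW g {0} d) * M.L ^ (∑ i, w i) := by
  classical
  have hw : ∀ i, w i ≤ d := Rec3.w_le hd hg hfree
  set A : Set (Pt K (σ × Fin (d + 1))) :=
    {z | (fun i => z (i, 0)) ∈ {z : Pt K σ | ∀ i, w i = 0 → z i = 0}} with hA
  have hAc : Constr A := (Rec2.constr_V w).preimage (fun z i => z (i, 0)) (fun i => IsPF.coord _)
  have hS : Constr {s : Pt K (Rec3.TT w d) | Rec3.ex w s ∈ A} :=
    hAc.preimage (fun s => Rec3.ex w s) (Rec3.pf_ex w)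
  have h0 := chi_split M (eV σ d) A {z : Pt K σ | ∀ i, w i = 0 → z i = 0} (Rec2.constr_V w)
    (fun z => Iff.rfl)
  rw [Fintype.card_prod, Fintype.card_fin] at h0
  rw [← h0]
  have h1 := chi_split M (Equiv.sumCompl fun p : σ × Fin (d + 1) => (p.2 : ℕ) + w p.1 ≤ d)
    A {s : Pt K (Rec3.TT w d) | Rec3.ex w s ∈ A} hS ?_
  · rw [h1, Rec3.card_w hw]
    congr 1
    have hdiv : ∀ z : Pt K (σ × Fin (d + 1)), z ∈ JetW g {0} d →
        Rec3.mtw w (Rec3.shw w z) = z := by
      intro z hz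
      refine Rec3.mtw_shw w z ?_
      exact Rec3.div_tw hd hg hfree z (fun i => congrFun hz.1 i) fun j k hk => hz.2 j k hk
    refine (M.iso _ _ hW hS (fun z => Rec3.shw w z) (fun s => Rec3.mtw w s)
      (regularOn_poly (Rec3.pf_shw w) _) (regularOn_poly (Rec3.pf_mtw w) _) ?_ ?_ ?_ ?_).symm
    · intro z hz
      have h2 := hdiv z hz
      rw [← h2, mem_mtwW g hg] at hz
      exact hz
    · intro s hs
      rw [mem_mtwW g hg]
      exact hs
    · exact hdiv
    · intro s _
      exact Rec3.shw_mtw w s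
  · intro z
    rw [hA, Set.mem_ofPred_eq, Set.mem_ofPred_eq, Set.mem_ofPred_eq, Set.mem_ofPred_eq,
      Set.mem_ofPred_eq]
    refine forall_congr' fun i => forall_congr' fun hi => ?_
    have h3 : z (i, 0) = Rec3.ex w (fun t => z ((Equiv.sumCompl fun p : σ × Fin (d + 1) =>
        (p.2 : ℕ) + w p.1 ≤ d) (Sum.inl t))) (i, 0) := by
      unfold Rec3.ex
      rw [dif_pos (by
        change ((0 : Fin (d + 1)) : ℕ) + w i ≤ d
        rw [hi]
        simp)]
      rfl
    beta_reduce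
    rw [← h3]

/-- (REC3T) -/
theorem t_REC3T (hWR : S_WREL) : S_REC3T := by
  intro K _ σ J _ _ g w d hd hg hfree R _ M v hv
  obtain ⟨q, hq⟩ := t_REC3 g w d hd hg hfree M v hv
  refine ⟨q, ?_, hq⟩
  have hq' : ∀ k ∈ Finset.range d, q k = PowerSeries.coeff k (ZF M v g {0}) := by
    intro k hk
    rw [Finset.mem_range] at hk
    rw [hq, map_add, map_sum, mul_assoc, PowerSeries.coeff_C_mul, PowerSeries.coeff_X_pow_mul',
      if_neg (by omega), mul_zero, add_zero]
    simp only [PowerSeries.coeff_C_mul, PowerSeries.coeff_X_pow, mul_ite, mul_one, mul_zero]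
    rw [Finset.sum_ite_eq, if_pos (Finset.mem_range.2 hk)]
  rw [Finset.sum_congr rfl hq']
  obtain ⟨hc, h1⟩ := hWR g M v hv ({0} : Set (Pt K σ)) constr_z d
  have h2 : PowerSeries.coeff d (WF M v g {0}) =
      1 - ∑ k ∈ Finset.range d, PowerSeries.coeff k (ZF M v g {0}) := by
    unfold WF
    rw [coeff_tl, Pool.Agent.D0H67.SUB.Trn.chi_zero M]
  rw [h1] at h2
  have h3 := chi_wW hd g hg hfree M hc
  have h4 : M.L ^ (∑ i, w i) * v ^ (∑ i, w i) = 1 := by rw [← mul_pow, hv, one_pow]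
  have h5 : M.L ^ (Fintype.card σ * d) * v ^ (Fintype.card σ * d) = 1 := by
    rw [← mul_pow, hv, one_pow]
  have h6 : M.χ _ (JetW g {0} d) * v ^ (Fintype.card σ * d) =
      v ^ (∑ i, w i) * M.χ σ {z | ∀ i, w i = 0 → z i = 0} := by
    calc M.χ _ (JetW g {0} d) * v ^ (Fintype.card σ * d)
        = M.χ _ (JetW g {0} d) * (M.L ^ (∑ i, w i) * v ^ (∑ i, w i)) *
          v ^ (Fintype.card σ * d) := by rw [h4, mul_one]
      _ = (M.χ _ (JetW g {0} d) * M.L ^ (∑ i, w i)) * v ^ (∑ i, w i) *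
          v ^ (Fintype.card σ * d) := by ring
      _ = v ^ (∑ i, w i) * M.χ σ {z | ∀ i, w i = 0 → z i = 0} *
          (M.L ^ (Fintype.card σ * d) * v ^ (Fintype.card σ * d)) := by
          rw [← h3]
          ring
      _ = _ := by rw [h5, mul_one]
  rw [h6] at h2
  rw [h2]
  ring

end Pool.Agent.D0H5.TS
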