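import Pool.Agent.D0H67.TS.Stm
import Pool.Agent.D0H35.CX.Rec2

/-! # Series of the jets of order `≥ N`: the operation `tl` -/

set_option autoImplicit false

namespace Pool.Agent.D0H5.TS

open MvPolynomial Pool.Agent.W428.MOT Pool.Agent.TH192.MT Pool.Agent.TH192.DT
  Pool.Agent.D0H67.SUB Pool.Agent.D0H67.PM Pool.Agent.D0H67.SUB.Trn Pool.Agent.D0H67.CX
  Pool.Agent.D0H67.CX.Qh Pool.Agent.D0H67.TS

section

variable {R : Type} [CommRing R]

theorem geo : (1 - PowerSeries.X) * (PowerSeries.mk fun _ => (1 : R)) = 1 := by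
  ext n
  rw [sub_mul, one_mul, map_sub, PowerSeries.coeff_mk]
  rcases n with _ | n
  · rw [PowerSeries.coeff_zero_X_mul, sub_zero, PowerSeries.coeff_zero_one]
  · rw [PowerSeries.coeff_succ_X_mul, PowerSeries.coeff_mk, sub_self, PowerSeries.coeff_one,
      if_neg (Nat.succ_ne_zero n)]

theorem tl_add (c c' : R) (F F' : PowerSeries R) : tl (c + c') (F + F') = tl c F + tl c' F' := by
  unfold tl
  rw [map_add]
  ring

theorem tl_C (c : R) : tl c (PowerSeries.C c) = PowerSeries.C c := by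
  unfold tl
  calc (PowerSeries.C c - PowerSeries.X * PowerSeries.C c) * (PowerSeries.mk fun _ => (1 : R))
      = PowerSeries.C c * ((1 - PowerSeries.X) * (PowerSeries.mk fun _ => (1 : R))) := by ring
    _ = PowerSeries.C c := by rw [geo, mul_one]

theorem tl_zero : tl (0 : R) 0 = 0 := by
  unfold tl
  simp

theorem tl_sum {ι : Type} (s : Finset ι) (c : ι → R) (F : ι → PowerSeries R) :
    tl (∑ i ∈ s, c i) (∑ i ∈ s, F i) = ∑ i ∈ s, tl (c i) (F i) := by
  classical
  induction s using Finset.induction_on with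
  | empty => simp only [Finset.sum_empty, tl_zero]
  | insert i s hi ih => rw [Finset.sum_insert hi, Finset.sum_insert hi, Finset.sum_insert hi, tl_add, ih]

theorem geo_pow (k : ℕ) : (1 - PowerSeries.X ^ k) * (PowerSeries.mk fun _ => (1 : R)) =
    ∑ i ∈ Finset.range k, PowerSeries.X ^ i := by
  have h := mul_neg_geom_sum (PowerSeries.X : PowerSeries R) k
  rw [← h]
  calc (1 - PowerSeries.X) * (∑ i ∈ Finset.range k, PowerSeries.X ^ i) *
        (PowerSeries.mk fun _ => (1 : R))
      = (∑ i ∈ Finset.range k, PowerSeries.X ^ i) *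
        ((1 - PowerSeries.X) * (PowerSeries.mk fun _ => (1 : R))) := by ring
    _ = _ := by rw [geo, mul_one]

/-- monomials -/
theorem tl_mon (c : R) (k : ℕ) : tl c (PowerSeries.C c * PowerSeries.X ^ k) =
    PowerSeries.C c * ∑ i ∈ Finset.range (k + 1), PowerSeries.X ^ i := by
  rw [← geo_pow]
  unfold tl
  ring

/-- multiples of a monomial -/
theorem tl_shift (a c : R) (d : ℕ) (F : PowerSeries R) :
    tl (a * c) (PowerSeries.C a * PowerSeries.X ^ d * F) =
      PowerSeries.C a * PowerSeries.X ^ d * tl c F +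
        PowerSeries.C (a * c) * ∑ i ∈ Finset.range d, PowerSeries.X ^ i := by
  rw [← geo_pow]
  unfold tl
  rw [map_mul]
  ring

/-- a series without high terms -/
theorem eq_sum (P : PowerSeries R) (d : ℕ) (h : ∀ n, d ≤ n → PowerSeries.coeff n P = 0) :
    P = ∑ k ∈ Finset.range d, PowerSeries.C (PowerSeries.coeff k P) * PowerSeries.X ^ k := by
  ext N
  rw [map_sum]
  simp only [PowerSeries.coeff_C_mul, PowerSeries.coeff_X_pow, mul_ite, mul_one, mul_zero]
  rw [Finset.sum_ite_eq]
  simp only [Finset.mem_range]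
  split_ifs with hN
  · rfl
  · exact h N (by omega)

theorem coeff_geo {k n : ℕ} (h : k ≤ n) :
    PowerSeries.coeff n (∑ i ∈ Finset.range k, (PowerSeries.X : PowerSeries R) ^ i) = 0 := by
  rw [map_sum]
  refine Finset.sum_eq_zero fun i hi => ?_
  rw [Finset.mem_range] at hi
  rw [PowerSeries.coeff_X_pow, if_neg (by omega)]

end

/-- (ADD2W) -/
theorem t_ADD2W : S_ADD2W := by
  intro K _ σ J _ _ g R _ M v hv
  obtain ⟨h1, h2⟩ := Pool.Agent.D0H35.CX.t_ADD2 g M v hv
  refine ⟨fun V W hV hW hVW => ?_, fun V hV hVg => ?_⟩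
  · unfold WF
    rw [h1 V W hV hW hVW, M.add V W hV hW hVW, tl_add]
  · unfold WF
    rw [h2 V hV hVg, tl_C]

/-- (REC3W) -/
theorem t_REC3W (hR : S_REC3T) : S_REC3W := by
  intro K _ σ J _ _ g w d hd hg hfree R _ M v hv
  obtain ⟨q, hq, h⟩ := hR g w d hd hg hfree M v hv
  set a : R := v ^ (∑ i, w i) with ha
  set V : Set (Pt K σ) := {z | ∀ i, w i = 0 → z i = 0} with hV
  have e1 : WF M v g {0} = (∑ k ∈ Finset.range d, PowerSeries.C (q k) *
      ∑ i ∈ Finset.range (k + 1), PowerSeries.X ^ i) +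
      (PowerSeries.C a * PowerSeries.X ^ d * WF M v g V +
        PowerSeries.C (a * M.χ σ V) * ∑ i ∈ Finset.range d, PowerSeries.X ^ i) := by
    unfold WF
    rw [chi_zero M, ← hq, h, tl_add, tl_sum, tl_shift]
    congr 1
    exact Finset.sum_congr rfl fun k _ => tl_mon _ _
  set P : PowerSeries R := (∑ k ∈ Finset.range d, PowerSeries.C (q k) *
      ∑ i ∈ Finset.range (k + 1), PowerSeries.X ^ i) +
        PowerSeries.C (a * M.χ σ V) * ∑ i ∈ Finset.range d, PowerSeries.X ^ i with hP
  refine ⟨fun k => PowerSeries.coeff k P, ?_⟩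
  rw [← eq_sum P d ?_, e1]
  · rw [hP]
    ring
  · intro n hn
    rw [hP, map_add, map_sum, PowerSeries.coeff_C_mul, coeff_geo hn, mul_zero, add_zero]
    refine Finset.sum_eq_zero fun k hk => ?_
    rw [Finset.mem_range] at hk
    rw [PowerSeries.coeff_C_mul, coeff_geo (by omega), mul_zero]

end Pool.Agent.D0H5.TS
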